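import Pool.Agent.N127.PB.Pairs

set_option autoImplicit false

/-! # The motivic monodromy conjecture for the polynomials `∑ y_j f_j(x₀, x₁, x₂)`

Here the `f_j` are forms of the same degree `d` in the three variables `x₀, x₁, x₂`, and the `y_j`
are further variables: `F = univ f = ∑ y_j f_j(x₀, x₁, x₂)`. The pole `s₀ = -3/d` comes from the
blow-up of `x₀ = x₁ = x₂ = 0`. If the Jacobian determinants of all triples of the `f_j` vanish then
the `f_j` are composed with a pencil of plane curves. This file proves that `-3/d` is a root of the
Bernstein-Sato polynomial of `F` for large classes of such `f_j`, see `RootCond`.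

`RootCond` (in `Pool.Agent.N127.PB.CondDefs`) contains the linear systems `L` which contain
`h G(P, Q)` and `h G'(P, Q)` for a pencil `P, Q` of curves of degree `e ≥ 3` with transversal base
points and an arbitrary form `h` (with a restriction for `e = 2`), the systems which contain `h P`
and `h Q`, where `P` and `Q` do not depend on `x₀` and the general line through `(1 : 0 : 0)` meets
`h = 0` in at least three other points (with a restriction in two other points), and the systems
which contain `h (P, Q) ^ k` under weak conditions.

The proof of `b(-3/d) = 0` (`root_of_EN`): let `α = -3/d` and suppose that `b(α) ≠ 0`. The functional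
equation gives polynomials `V_l` in `x` and `y` with
`b(α) F ^ α = ∑_l ∂_{x_l} (V_l F ^ (α - N))` for `F = ∑ y_j f_j` (`stmA`, `stmAI`). For two elements
`h P`, `h Q` of the linear system, a residue at the zero of `P + y Q` (as a polynomial in `y`) gives
a rational function `g` with `{g} + α g {h} / h = const ≠ 0`, where
`{a} = det (∇P, ∇Q, ∇a)` (`pair`). For pencils with transversal base points, the orders of the
numerator of `g` at the base points contradict its degree (`RPlus.no_sol_plus`); for pencils of
lines, `g` is a polynomial in `x₀` whose degree gives a contradiction (`stmLines`). -/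

namespace Pool.Agent.Results.MP_b07157_ag.ConePencils

open MvPolynomial Pool.Agent.W574.MO Pool.Agent.W574.SM Pool.Agent.W574.HS Pool.Agent.H628R4.TP
open Pool.Agent.N127.PB

/-- `Z` is (of the form of) the motivic zeta function `∫ T^(ord F) dμ` of the polynomial
`F = ∑ y_j f_j(x₀, x₁, x₂)`, where the `f_j` are forms of degree `d`:
`Z = Z_I (1 - L⁻¹) / (1 - L⁻¹ T)`, where `Z_I = ∫ T^(ord I) dμ` is the motivic zeta function of the
ideal `I = (f_j)` of `ℂ[x₀, x₁, x₂]`, and `Z_I = L⁻³ (L - 1) Z_J / (1 - L⁻³ T^d)`, see `ProjMot` for
`Z_J` and `ConeJetMot` for these formulas. -/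
def ConeFormMot {M : Type} [CommRing M] {ι : Type} (L : Mˣ) (f : ι → MvPolynomial (Fin 3) ℂ)
    (d : ℕ) (Z : PowerSeries M) : Prop :=
  ∃ Z' : PowerSeries M, ProjMot L f Z' ∧
    Z = PowerSeries.C (((L⁻¹ ^ 3 : Mˣ) : M) * ((L : M) - 1) * (1 - ((L⁻¹ : Mˣ) : M))) * Z' *
      geo L d 3 * geo L 1 1

/-- Let `f_j` be forms of the same degree `d > 0` in three variables, not all zero, let `b` be a
polynomial which satisfies a functional equation `b(s) F ^ s = P(s) F ^ (s + 1)` (in particular the
Bernstein-Sato polynomial of `F = ∑ y_j f_j`), and let `Z ∈ M⟦T⟧` be the motivic zeta function of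
`F`. Then `Z` lies in the ring `M[T][(1 - L⁻ⁿ Tᵃ)⁻¹]`, where the pairs
`a, n ≥ 1` are such that `-n/a` is a root of `b` or, only in the case where the Jacobian
determinants of all triples of the `f_j` vanish and the linear system which is spanned by the `f_j`
satisfies none of the conditions `RootCond`, `-n/a = -3/d`; see `PencilPair`. -/
theorem result {M : Type} [CommRing M] (L : Mˣ) {ι : Type} [Fintype ι]
    (f : ι → MvPolynomial (Fin 3) ℂ) (d : ℕ) (hd : 0 < d) (hf : ∀ j, (f j).IsHomogeneous d)
    (hf0 : ∃ j, f j ≠ 0) (b : Polynomial ℂ) (hb : IsBFunction (univ f) b)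
    (Z : PowerSeries M) (hZ : ConeFormMot L f d Z) :
    Z ∈ DenRing L (PencilPair f d b) := by
  classical
  refine den_pencil L f d hd b (fun hc => root_form f d hd hf b hb hc) Z ?_
  obtain ⟨Z', hZ', rfl⟩ := hZ
  have hb' := functionalEq_of_univ f b hb
  exact Subring.mul_mem _ (Subring.mul_mem _ (Subring.mul_mem _ (C_mem _)
    (proj_mot L f d hf b hb' Z' hZ'))
    (geo_mem hd (by norm_num) (pair_d3 f d hd hf b hb')))
    (geo_mem le_rfl le_rfl (pair_11 f d hf0 b hb))

end Pool.Agent.Results.MP_b07157_ag.ConePencils
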