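import Pool.Agent.N101.CB.Form

set_option autoImplicit false

/-! # The strong motivic monodromy conjecture: cubic polynomials suffice

For every non-constant polynomial `f` in `n` variables with `f(0) = 0` we construct a cubic polynomial
`F` in `n + 2 κ` variables, of the form `q_0(x) + ∑_k t_k q_k(x)` with polynomials `q_0, q_k` of degree at
most two, all of whose monomials are squarefree (`Cub F`), such that the conjecture for `F` implies the
conjecture for `f`, globally and at the origin. So the conjecture holds for all polynomials if it holds for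
these cubic polynomials. (For the Jacobian conjecture the reduction to cubic maps is a theorem of
Bass, Connell and Wright.)

Construction. Let `c x ^ (a + b)` be a monomial of `f`. The polynomial
`f + (t + c x ^ b) (w - x ^ a) = (f - c x ^ (a + b)) + c x ^ b w + t (w - x ^ a)` is the image of `f + t w` by the
automorphism `t ↦ t + c x ^ b`, `w ↦ w - x ^ a`. After finitely many steps of this kind (`κ` of them) all
monomials are squarefree, of degree at most one in the variables `t` and at most two in the others.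

Zeta functions. The jets of `f + t w` are classified by `ord t`; this gives the exact formula
`(1 - 𝕃⁻¹ T) D_{f + t w}(T) = 𝕃⁻¹ (1 - T) D_f(𝕃⁻¹ T)` in `𝓜[[T]]` for
`D_f(T) = (1 - 𝕃⁻¹ T) Z_f(T) - (1 - 𝕃⁻¹)`, and the same for the local zeta functions and
`(1 - 𝕃⁻¹ T) Z_{f, 0}(T) - 𝕃 ^ (-n) (1 - 𝕃⁻¹) T`. (No resolution of singularities is used, nor that `𝓜` is
a domain.) So the poles `≠ -1` are shifted by one.

Bernstein-Sato polynomials. If `(s + 1) c(s)` satisfies the functional equation of `f`, then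
`(s + 1) c(s + 1)` satisfies the one of `f + t w`. -/

namespace Pool.Agent.Results.MP_b07157_ag.CubicPolynomials

open MvPolynomial Pool.Agent.W428.MOT Pool.Agent.N101.CB
open Pool.Agent.H628R4.TP (IsBFunction IsLocalBFunction)

/-- Q1 for `f`: every pole `s₀` of the motivic zeta function `Z^mot_f` is a root of every polynomial
`b` with `b(s) f ^ s = P(s) f ^ (s + 1)`, in particular of the Bernstein-Sato polynomial. (All the poles are
negative, by the formula with a resolution.) -/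
def GlobalConj {n : ℕ} (f : MvPolynomial (Fin n) ℂ) : Prop :=
  ∀ s₀ : ℚ, s₀ < 0 → IsPole (Zmot f Set.univ) s₀ →
    ∀ b : Polynomial ℂ, IsBFunction f b → b.eval (s₀ : ℂ) = 0

/-- Q2 for `f`: the same for the local zeta function `Z^mot_{f, 0}` and the local functional
equations at `0`. -/
def LocalConj {n : ℕ} (f : MvPolynomial (Fin n) ℂ) : Prop :=
  ∀ s₀ : ℚ, s₀ < 0 → IsPole (Zmot f {0}) s₀ →
    ∀ b : Polynomial ℂ, IsLocalBFunction f b → b.eval (s₀ : ℂ) = 0

theorem isPole_Zmot {n : ℕ} (f : MvPolynomial (Fin n) ℂ) (W : Set (Pt ℂ (Fin n))) (s₀ : ℚ) :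
    IsPole (Zmot f W) s₀ ↔ IsPole (zt f W) s₀ := by
  unfold IsPole Zmot
  rw [not_iff_not]
  constructor
  · intro h
    have h1 := (ratRing ℂ {p : ℤ × ℤ | 0 < p.2 ∧ (p.1 : ℚ) / p.2 ≠ s₀}).mul_mem
      (Pool.Agent.W63.MTFin.C_mem _ (((Lu ℂ) ^ (n : ℤ) : (MK ℂ)ˣ) : MK ℂ)) h
    rw [← mul_assoc, ← map_mul, ← Units.val_mul, ← zpow_add, add_neg_cancel, zpow_zero,
      Units.val_one, map_one, one_mul] at h1
    exact h1
  · intro h
    exact (ratRing ℂ _).mul_mem (Pool.Agent.W63.MTFin.C_mem _ _) h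

theorem conj_aux {s₀ : ℚ} (h0 : s₀ < 0) (κ : ℕ) (hκ : s₀ ≠ -1) {b c : Polynomial ℂ}
    (hc : b = (Polynomial.X + 1) * c)
    (h : ((Polynomial.X + 1) * c.comp (Polynomial.X + Polynomial.C (κ : ℂ))).eval
      (((s₀ - κ : ℚ)) : ℂ) = 0) : b.eval (s₀ : ℂ) = 0 := by
  rw [hc, Polynomial.eval_mul]
  rw [Polynomial.eval_mul, Polynomial.eval_comp] at h
  rcases mul_eq_zero.1 h with h1 | h1
  · exfalso
    rw [Polynomial.eval_add, Polynomial.eval_X, Polynomial.eval_one] at h1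
    have h2 : s₀ - κ + 1 = 0 := by exact_mod_cast h1
    rcases Nat.eq_zero_or_pos κ with h3 | h3
    · apply hκ
      rw [h3] at h2
      push_cast at h2
      linarith
    · have h4 : (1 : ℚ) ≤ κ := by exact_mod_cast h3
      linarith
  · have h2 : (Polynomial.X + Polynomial.C (κ : ℂ)).eval ((s₀ - κ : ℚ) : ℂ) = (s₀ : ℂ) := by
      rw [Polynomial.eval_add, Polynomial.eval_X, Polynomial.eval_C]
      push_cast
      ring
    rw [h2] at h1
    rw [h1, mul_zero]

theorem exists_factor {b : Polynomial ℂ} (hb : b.eval (-1) = 0) :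
    ∃ c : Polynomial ℂ, b = (Polynomial.X + 1) * c := by
  obtain ⟨c, hc⟩ := Polynomial.dvd_iff_isRoot.2 (show b.IsRoot (-1) from hb)
  refine ⟨c, ?_⟩
  rw [hc, Polynomial.C_neg, Polynomial.C_1, sub_neg_eq_add]

theorem glob_of {n m : ℕ} {f : MvPolynomial (Fin n) ℂ} {F : MvPolynomial (Fin m) ℂ} {κ : ℕ}
    (hf : f.totalDegree ≠ 0) (h : Rl f F κ) (hF : GlobalConj F) : GlobalConj f := by
  intro s₀ h0 h1 b hb
  obtain ⟨h2, h3⟩ := h.b hf b hb
  by_cases h4 : s₀ = -1
  · rw [h4]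
    push_cast
    exact h2
  · obtain ⟨c, hc⟩ := exists_factor h2
    refine conj_aux h0 κ h4 hc (hF (s₀ - κ) ?_ ?_ _ (h3 c hc))
    · have : (0 : ℚ) ≤ κ := Nat.cast_nonneg κ
      linarith
    · rw [isPole_Zmot] at h1 ⊢
      exact h.pole s₀ h0 h4 h1

theorem loc_of {n m : ℕ} {f : MvPolynomial (Fin n) ℂ} {F : MvPolynomial (Fin m) ℂ} {κ : ℕ}
    (hf : f.totalDegree ≠ 0) (hf0 : constantCoeff f = 0) (h : Rl f F κ) (hF : LocalConj F) :
    LocalConj f := by
  intro s₀ h0 h1 b hb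
  obtain ⟨h2, h3⟩ := h.lb hf hf0 b hb
  by_cases h4 : s₀ = -1
  · rw [h4]
    push_cast
    exact h2
  · obtain ⟨c, hc⟩ := exists_factor h2
    refine conj_aux h0 κ h4 hc (hF (s₀ - κ) ?_ ?_ _ (h3 c hc))
    · have : (0 : ℚ) ≤ κ := Nat.cast_nonneg κ
      linarith
    · rw [isPole_Zmot] at h1 ⊢
      exact h.lpole hf0 s₀ h0 h4 h1

/-- **Cubic polynomials suffice for the strong motivic monodromy conjecture.**

First part: for every non-constant `f` in `n` variables with `f(0) = 0` there are `κ` and a cubic `F` with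
`Cub F` in `m = n + 2 κ` variables, `F` non-constant and `F(0) = 0`, such that
(1) `(1 - 𝕃 ^ (-κ) T) D_F(T) = 𝕃 ^ (-κ) (1 - T) D_f(𝕃 ^ (-κ) T)`, `D_f = Dg f =
(1 - 𝕃⁻¹ T) Z^mot_f - (1 - 𝕃⁻¹)`, and the same for `Dl f = (1 - 𝕃⁻¹ T) Z^mot_{f, 0} - 𝕃 ^ (-n) (1 - 𝕃⁻¹) T`;
(2) if `s₀ < 0`, `s₀ ≠ -1`, is a pole of `Z^mot_f` (or `Z^mot_{f, 0}`), then `s₀ - κ` is a pole of `Z^mot_F`
(or `Z^mot_{F, 0}`);
(3) a global or local functional equation of `f` with `(s + 1) c(s)` gives one of `F` with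
`(s + 1) c(s + κ)`;
(4) the conjectures Q1, Q2 for `F` imply Q1, Q2 for `f`.

Second and third part: Q1 (respectively Q2) holds for all non-constant polynomials with `f(0) = 0`, in any
number of variables, if and only if it holds for those with `Cub f`. -/
theorem result :
    (∀ {n : ℕ} (f : MvPolynomial (Fin n) ℂ), f.totalDegree ≠ 0 → constantCoeff f = 0 →
      ∃ (κ m : ℕ) (F : MvPolynomial (Fin m) ℂ), m = n + 2 * κ ∧ Cub F ∧ F.totalDegree ≠ 0 ∧
        constantCoeff F = 0 ∧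
        (1 - cYk κ * PowerSeries.X) * Dg F = cYk κ * (1 - PowerSeries.X) * rsk κ (Dg f) ∧
        (1 - cYk κ * PowerSeries.X) * Dl F = cYk κ * (1 - PowerSeries.X) * rsk κ (Dl f) ∧
        (∀ s₀ : ℚ, s₀ < 0 → s₀ ≠ -1 →
          (IsPole (Zmot f Set.univ) s₀ → IsPole (Zmot F Set.univ) (s₀ - κ)) ∧
          (IsPole (Zmot f {0}) s₀ → IsPole (Zmot F {0}) (s₀ - κ))) ∧
        (∀ c : Polynomial ℂ, IsBFunction f ((Polynomial.X + 1) * c) →
          IsBFunction F ((Polynomial.X + 1) * c.comp (Polynomial.X + Polynomial.C (κ : ℂ)))) ∧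
        (∀ c : Polynomial ℂ, IsLocalBFunction f ((Polynomial.X + 1) * c) →
          IsLocalBFunction F ((Polynomial.X + 1) * c.comp (Polynomial.X + Polynomial.C (κ : ℂ)))) ∧
        (GlobalConj F → GlobalConj f) ∧ (LocalConj F → LocalConj f)) ∧
    ((∀ (n : ℕ) (f : MvPolynomial (Fin n) ℂ), f.totalDegree ≠ 0 → constantCoeff f = 0 →
        GlobalConj f) ↔
      ∀ (n : ℕ) (f : MvPolynomial (Fin n) ℂ), Cub f → f.totalDegree ≠ 0 → constantCoeff f = 0 →
        GlobalConj f) ∧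
    ((∀ (n : ℕ) (f : MvPolynomial (Fin n) ℂ), f.totalDegree ≠ 0 → constantCoeff f = 0 →
        LocalConj f) ↔
      ∀ (n : ℕ) (f : MvPolynomial (Fin n) ℂ), Cub f → f.totalDegree ≠ 0 → constantCoeff f = 0 →
        LocalConj f) := by
  have key : ∀ {n : ℕ} (f : MvPolynomial (Fin n) ℂ), ∃ (κ m : ℕ) (F : MvPolynomial (Fin m) ℂ),
      m = n + 2 * κ ∧ Cub F ∧ (Rl f F κ ∧ Rf f F κ) := fun f =>
    chain (fun f F κ => Rl f F κ ∧ Rf f F κ) (fun f => ⟨Rl.refl f, Rf.refl f⟩)
      (fun f u v F κ hu hv h => ⟨Rl.step f u v F κ hu hv h.1, Rf.step f u v F κ hu hv h.2⟩) f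
  refine ⟨fun f hf hf0 => ?_, ⟨fun h n f _ => h n f, fun h n f hf hf0 => ?_⟩,
    ⟨fun h n f _ => h n f, fun h n f hf hf0 => ?_⟩⟩
  · obtain ⟨κ, m, F, hm, hF, hl, hr⟩ := key f
    refine ⟨κ, m, F, hm, hF, hl.deg hf, hl.const hf0, hr.glob, hr.loc hf0, fun s₀ h0 h1 => ⟨?_, ?_⟩,
      fun c hc => (hl.b hf _ hc).2 c rfl, fun c hc => (hl.lb hf hf0 _ hc).2 c rfl,
      glob_of hf hl, loc_of hf hf0 hl⟩
    · rw [isPole_Zmot, isPole_Zmot]
      exact hl.pole s₀ h0 h1
    · rw [isPole_Zmot, isPole_Zmot]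
      exact hl.lpole hf0 s₀ h0 h1
  · obtain ⟨κ, m, F, -, hF, hl, -⟩ := key f
    exact glob_of hf hl (h m F hF (hl.deg hf) (hl.const hf0))
  · obtain ⟨κ, m, F, -, hF, hl, -⟩ := key f
    exact loc_of hf hf0 hl (h m F hF (hl.deg hf) (hl.const hf0))

end Pool.Agent.Results.MP_b07157_ag.CubicPolynomials
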