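import Pool.Agent.N103.GlG

set_option autoImplicit false

/-! # The strong motivic monodromy conjecture (global form) for polynomials built from
`h(x₁, x₂) (f₀(x₁, x₂) + ∑ y_j f_j(x₁, x₂)) ^ a`

`M` is a commutative ring with a unit `L`, for instance `K₀(Var_ℂ)[1/L]`.

Let `GlobLin` (in `Pool.Agent.N103.GKDefs`) be the least class of ideals, together with their
motivic zeta functions, with the following properties:

* it contains the principal ideals generated by the polynomials
  `FF h f a = h(x₁, x₂) (f₀(x₁, x₂) + ∑ y_j f_j(x₁, x₂)) ^ a ≠ 0`, `a ≥ 1`, with arbitrary polynomials
  `h`, `f₀`, `f_j` in two variables and any number of further variables `y_j`, if some `f_j`, `j ≠ 0`, is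
  not zero (otherwise `F` is a polynomial in two variables); for `h = 1`, `a = 1` these
  are all the polynomials of degree at most one in all but two variables;
* it contains the ideals of `Pool.Agent.R852.MC.MG`: the unit ideal, the powers `(x ^ m)`, the non-zero
  ideals of `ℂ[x₁, x₂]`, the ideals of `ℂ[x₀, x₁, x₂]` generated by forms of the same degree, three of
  which are algebraically independent, and the ideals generated by forms of the same degree without a
  common zero outside the origin;
* it is closed under sums `I + J` and products `I J` in disjoint sets of variables;
* if the ideal `h ∏_t (f_{t, j})_j ^ a_t` is in the class, where `h` and the `f_{t, j}` are any polynomials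
  in the same variables `x`, then the principal ideal of
  `h(x) ∏_t (∑_j y_{t, j} f_{t, j}(x)) ^ a_t` is in the class, with further variables `y_{t, j}`;
* if the principal ideal `(g)` is in the class, then `(g ^ k)` is in the class.

For example, the products `F_1^{a_1} ⋯ F_r^{a_r}` and the polynomials
`∑ z_i F_i^{a_i}`, where the `F_i` are polynomials in disjoint sets of variables, each of degree at
most one in all but two of its variables, are in the class.

The motivic zeta function of `F = FF h f a`: let `X' → ℂ ^ 2` be a composition of blow-ups of
points such that `h` and the pull-back of the ideal `(f₀, f_j)` become monomial; on `X' × ℂ ^ κ` the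
polynomial `F` is a monomial in the equations of the exceptional curves and of the strict
transforms of the curves, times `(g₀ + ∑ y_j g_j) ^ a`, where the `g₀, g_j` have no common zero; so
`W : g₀ + ∑ y_j g_j = 0` is smooth and transversal to the other components. The fibre of `W` over a
point `Q` of `X'` is empty, if `g_j(Q) = 0` for all `j ≠ 0`, and an affine space of dimension `|κ| - 1`
otherwise. So the sum over all the strata is a sum over the strata of `X'`, which are divided
according to these two cases; it is computed by the rules of `GlobZeta` and `FibreZeta` (in
`Pool.Agent.N103.GDefs`), with the local factors `(L - 1) L⁻ⁿ Tᵃ / (1 - L⁻ⁿ Tᵃ)` (`mf L`).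

The proof: let `b(s₀) ≠ 0`. Let `E` be an exceptional curve of `X'` with the candidate pole `s₀`. At
every place `Q` of `E` and for every `c`, the pull-back of a functional equation of `F` to the
neighbourhood of `E × {c}` gives a rational solution of a differential equation of first order on `E`,
so that at most two points of `E` are special for the member `g₀ + ∑ c_j g_j` (`blowA`), and the
members of smaller order do not exist but in one case (`nodeT'`). The three possible cases are: the
`g_j`, `j ≠ 0`, vanish on `E`; some member vanishes on `E`; or, by the degree formula on the projective
line (`lemM`), all `g_j`, `j ≠ 0`, vanish to the order `m = deg` at one point `Q₁` and `g₀` vanishes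
to the order `m - 1` there. In all three cases the sum of the contributions of `E × ℂ ^ κ` has no
denominator which belongs to `s₀` (`crit_beta`, `goodG_all`, in `Pool.Agent.N103.GlD`, `GlE`). Over the
factorial ring `ℤ[L, L⁻¹]` the denominators which do not belong to roots can be removed at the same
time, and the roots `-1/m` of the curves in the plane and `-1/a` of `W` are obtained at general points
(`root_curve`, `root_a`). Since the volume of all arcs is `1` (`val_fibre`), the series of the volumes of
`ord ≥ e` has the same denominators, and it is multiplicative (Hadamard product) for sums of
ideals in disjoint sets of variables.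
-/

namespace Pool.Agent.Results.MP_b07157_ag.DegreeOneClosure

open MvPolynomial Pool.Agent.W574.MO Pool.Agent.W574.RO Pool.Agent.Y229 Pool.Agent.N103
open Pool.Agent.H628R4.TP (IsBFunction)

/-- **The strong motivic monodromy conjecture (global form) for the hypersurfaces of the class
`GlobLin`**, which contains the hypersurfaces `h(x₁, x₂) (f₀(x₁, x₂) + ∑ y_j f_j(x₁, x₂)) ^ a = 0` and
is closed, as a class of ideals, under sums and products in disjoint sets of variables, powers of
principal ideals, and products of powers of general forms `∑ y_j f_j` (with new variables `y_j`) of
the generators. Let `Z` be the motivic zeta function of `F`, and let `b` satisfy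
`b(s) F ^ s = P(s) F ^ (s + 1)`, for instance the Bernstein-Sato polynomial of `F`. Then `Z` lies in
the ring generated by `M[T]` and the series `1 / (1 - L⁻ⁿ Tᵃ)`, `a, n ≥ 1`, such that `b(-n/a) = 0`. -/
theorem result {M : Type} [CommRing M] (L : Mˣ) {σ : Type} (F : MvPolynomial σ ℂ)
    (Z : PowerSeries M) (hZ : GlobLin L ⟨σ, Fin 1, fun _ => F⟩ Z) (b : Polynomial ℂ)
    (hb : IsBFunction F b) : Z ∈ DenRing L (RootPair b) :=
  globLin_hyp F Z hZ b hb

end Pool.Agent.Results.MP_b07157_ag.DegreeOneClosure
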